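import Mathlib
import Pool.Agent.W448.HHHLight

/-!
# The Hermite-Hadamard-Howe map kills the rectangular component for odd `d`

The definitions are in `Pool.Agent.W448.HHHLight` and `Pool.Agent.W448.HHHDefs`:

* `Tens V ι` is `V^{⊗ι}`, as multilinear maps on the dual;
* `IsSymSym T` says that `T ∈ V^{⊗(k × m)}` lies in `S^k(S^m V)`;
* `hhhMap d n` is the Hermite-Hadamard-Howe map `h_{d,n}`;
* `IsRect T` says that `T` lies in the irreducible module `S_{(d^n)} V`, realised as the span of
  all `(w_1 ∧ … ∧ w_n)^{⊗ d}`;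
* `InIsotypic T` says that `T` lies in the `S_{(d^n)} V`-isotypic component of `S^d(S^n V)`.

For odd `d` and `n ≥ 2` the map `h_{d,n}` vanishes on the isotypic component, for every `V`.
For `(d, n) = (7, 4)` and `dim V ≥ 4` the isotypic component is nonzero: a nonzero
equivariant map is built from the complement of the Fano plane. So `h_{7,4}` vanishes
identically on the nonzero `S_{(7^4)} V`-isotypic component of `S^7(S^4 V)`.

`Pool.Agent.W448.HHH.hhhMap_powers` checks the formula
`h_{d,n}(x_1^n ⋯ x_d^n) = (x_1 ⋯ x_d)^n`.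
-/

open Module Pool.Agent.W448.HHH

/-- For every odd `d` and every `n ≥ 2`, the map `h_{d,n}` vanishes on the `S_{(d^n)} V`-isotypic
component of `S^d(S^n V)`; and for `(d, n) = (7, 4)` this isotypic component is nonzero
for every `V` of finite dimension at least `4`. -/
theorem Pool.Agent.Results.MP_96ff56_al.OddDegreeKernel.result.{u} :
    (∀ d n : ℕ, Odd d → 2 ≤ n → ∀ (V : Type u) [AddCommGroup V] [Module ℂ V],
      ∀ T : Tens V (Fin d × Fin n), InIsotypic T → hhhMap d n T = 0) ∧
    (∀ (V : Type u) [AddCommGroup V] [Module ℂ V] [FiniteDimensional ℂ V], 4 ≤ finrank ℂ V →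
      ∃ T : Tens V (Fin 7 × Fin 4), InIsotypic T ∧ T ≠ 0) :=
  ⟨fun _ _ hd hn _ _ _ T hT => hhhMap_eq_zero hd hn T hT,
    fun _ _ _ _ hV => isotypic_seven_four hV⟩
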